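import Pool.Agent.H5.CF.Targets

/-! Modules M5a, M5b (with M5c) of MP_268cdb_al. -/

set_option autoImplicit false

namespace Pool.Agent.H15.CF

open Pool.Agent.H5.CF Monoid

theorem prod_filter {α H : Type*} [Monoid H] (f : α → H) (p : α → Prop) [DecidablePred p]
    (hf : ∀ i, ¬ p i → f i = 1) : ∀ L : List α,
    (L.map f).prod = ((L.filter (fun i => decide (p i))).map f).prod
  | [] => rfl
  | x :: L => by
    rw [List.map_cons, List.prod_cons, prod_filter f p hf L]
    by_cases hx : p x
    · rw [List.filter_cons_of_pos (by simpa using hx), List.map_cons, List.prod_cons]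
    · rw [List.filter_cons_of_neg (by simpa using hx), hf x hx, one_mul]

theorem prod_sorted {H : Type*} [Monoid H] {n : ℕ} (f : Fin n → H) (l : List (Fin n))
    (hl : l.Pairwise (· < ·)) (hf : ∀ i, i ∉ l → f i = 1) :
    (List.ofFn f).prod = (l.map f).prod := by
  rw [List.ofFn_eq_map, prod_filter f (fun i => i ∈ l) hf]
  congr 2
  refine List.Pairwise.eq_of_mem_iff (r := (· < ·)) ?_ hl ?_
  · exact (List.pairwise_lt_finRange n).filter _
  · intro a
    simp

/-- alternating products of four nontrivial elements are nontrivial -/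
theorem alt4 {H : Type} [Group H] {a b c d : H} (ha : a ≠ 1) (hb : b ≠ 1) (hc : c ≠ 1)
    (hd : d ≠ 1) : (Coprod.inl a * (Coprod.inr b * (Coprod.inl c * Coprod.inr d)) :
      Coprod H H) ≠ 1 := by
  classical
  intro h
  let φ : Coprod H H →* CoprodI (fun _ : Bool => H) :=
    Coprod.lift (CoprodI.of (M := fun _ : Bool => H) (i := false))
      (CoprodI.of (M := fun _ : Bool => H) (i := true))
  have h1 := congrArg φ h
  rw [map_mul, map_mul, map_mul, map_one] at h1
  have e1 : ∀ x, φ (Coprod.inl x) = CoprodI.of (M := fun _ : Bool => H) (i := false) x :=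
    fun x => Coprod.lift_apply_inl _ _ _
  have e2 : ∀ x, φ (Coprod.inr x) = CoprodI.of (M := fun _ : Bool => H) (i := true) x :=
    fun x => Coprod.lift_apply_inr _ _ _
  rw [e1, e1, e2, e2] at h1
  let w : CoprodI.Word (fun _ : Bool => H) :=
    { toList := [⟨false, a⟩, ⟨true, b⟩, ⟨false, c⟩, ⟨true, d⟩]
      ne_one := by
        intro l hl
        simp only [List.mem_cons, List.not_mem_nil, or_false] at hl
        rcases hl with rfl | rfl | rfl | rfl
        · exact ha
        · exact hb
        · exact hc
        · exact hd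
      chain_ne := by simp }
  have h2 : w.prod = CoprodI.Word.empty.prod := by
    rw [CoprodI.Word.prod_empty, ← h1]
    simp [CoprodI.Word.prod, w]
  have h3 : w = CoprodI.Word.empty := CoprodI.Word.equiv.symm.injective h2
  have h4 := congrArg CoprodI.Word.toList h3
  simp [w, CoprodI.Word.empty] at h4

theorem emb_even {i : ℕ} (h : i % 2 = 0) : emb i = Coprod.inl := if_pos h
theorem emb_odd {i : ℕ} (h : i % 2 = 1) : emb i = Coprod.inr := if_neg (by omega)

theorem m5a (he : TargetM5e) (hl : TargetM5l) : TargetM5a := by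
  intro h h0 h1
  rw [he h, prod_sorted _ [0, 13, 26, 39] (by decide)]
  · have hm : ∀ i : Fin 52, IsMain i → sylv (h i) ≠ 1 := by
      intro i hi hs
      rw [hl.2.2.1] at hs
      obtain ⟨z, hz⟩ := h1 i hi
      exact hz (hs z)
    simp only [List.map_cons, List.map_nil, List.prod_cons, List.prod_nil, mul_one]
    rw [emb_even (i := ((0 : Fin 52) : ℕ)) (by decide),
      emb_odd (i := ((13 : Fin 52) : ℕ)) (by decide),
      emb_even (i := ((26 : Fin 52) : ℕ)) (by decide),
      emb_odd (i := ((39 : Fin 52) : ℕ)) (by decide)]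
    exact alt4 (hm 0 (by decide)) (hm 13 (by decide)) (hm 26 (by decide)) (hm 39 (by decide))
  · intro i hi
    have hi' : ¬ IsMain i := by
      intro hM
      apply hi
      revert hM
      revert i
      decide
    rw [(hl.2.2.1 (h i)).mpr (h0 i hi'), map_one]

theorem m5b (he : TargetM5e) (hl : TargetM5l) : TargetM5b := by
  intro h i j hi hj h0 h1 h2 h3
  rw [he h]
  have e1 : sylv (h i) = sylv (h 0) := (hl.2.1 _ _).mpr h1
  have e2 : sylv (h j) = sylv (h 26) := (hl.2.1 _ _).mpr h2
  have e3 : sylv (h 13) = sylv (h 39) := (hl.2.1 _ _).mpr h3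
  have hone : ∀ l : Fin 52, l ≠ 0 → l ≠ 13 → l ≠ 26 → l ≠ 39 → l ≠ i → l ≠ j →
      emb l (sylv (h l)) = 1 := by
    intro l a0 a13 a26 a39 ai aj
    have hM : ¬ IsMain l := by
      intro hM
      revert a0 a13 a26 a39 hM
      clear ai aj
      revert l
      decide
    rw [(hl.2.2.1 (h l)).mpr (h0 l hM ai aj), map_one]
  have sq := hl.2.2.2
  have E0 : emb ((0 : Fin 52) : ℕ) = Coprod.inl := emb_even (by decide)
  have E13 : emb ((13 : Fin 52) : ℕ) = Coprod.inr := emb_odd (by decide)
  have E26 : emb ((26 : Fin 52) : ℕ) = Coprod.inl := emb_even (by decide)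
  have E39 : emb ((39 : Fin 52) : ℕ) = Coprod.inr := emb_odd (by decide)
  have Ei : emb (i : ℕ) = Coprod.inl := emb_even hi.1
  have Ej : emb (j : ℕ) = Coprod.inl := emb_even hj.1
  have s0 : (Coprod.inl (sylv (h 0)) : G) * Coprod.inl (sylv (h 0)) = 1 := by
    rw [← map_mul, sq, map_one]
  have s26 : (Coprod.inl (sylv (h 26)) : G) * Coprod.inl (sylv (h 26)) = 1 := by
    rw [← map_mul, sq, map_one]
  have s39 : (Coprod.inr (sylv (h 39)) : G) * Coprod.inr (sylv (h 39)) = 1 := by
    rw [← map_mul, sq, map_one]
  have f0 : ((0 : Fin 52) : ℕ) = 0 := rfl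
  have f13 : ((13 : Fin 52) : ℕ) = 13 := rfl
  have f26 : ((26 : Fin 52) : ℕ) = 26 := rfl
  have f39 : ((39 : Fin 52) : ℕ) = 39 := rfl
  have hnot : ∀ (L : List (Fin 52)), (∀ l, l ∉ L → l ≠ 0 ∧ l ≠ 13 ∧ l ≠ 26 ∧ l ≠ 39 ∧ l ≠ i ∧
      l ≠ j) → ∀ l, l ∉ L → emb l (sylv (h l)) = 1 := by
    intro L hL l hlL
    obtain ⟨a0, a13, a26, a39, ai, aj⟩ := hL l hlL
    exact hone l a0 a13 a26 a39 ai aj
  rcases lt_or_ge (i : ℕ) 13 with hi13 | hi13
  · rcases lt_or_ge (j : ℕ) 26 with hj26 | hj26
    · rw [prod_sorted _ [0, i, 13, j, 26, 39]]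
      · simp only [List.map_cons, List.map_nil, List.prod_cons, List.prod_nil, mul_one]
        rw [E0, E13, E26, E39, Ei, Ej, e1, e2, e3, ← mul_assoc (Coprod.inl (sylv (h 26))), s26,
          one_mul, s39, mul_one, s0]
      · simp only [List.pairwise_cons, List.mem_cons, List.not_mem_nil, or_false, Fin.lt_def,
          forall_eq_or_imp, forall_eq, f0, f13, f26, f39, List.Pairwise.nil, and_true,
          IsEmpty.forall_iff, implies_true]
        omega
      · apply hnot
        intro l hlL
        simp only [List.mem_cons, List.not_mem_nil, or_false, not_or] at hlL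
        tauto
    · have hj' : 26 < (j : ℕ) := by
        rcases hj with ⟨-, hj, -⟩
        omega
      rw [prod_sorted _ [0, i, 13, 26, j, 39]]
      · simp only [List.map_cons, List.map_nil, List.prod_cons, List.prod_nil, mul_one]
        rw [E0, E13, E26, E39, Ei, Ej, e1, e2, e3, ← mul_assoc (Coprod.inl (sylv (h 26))), s26,
          one_mul, s39, mul_one, s0]
      · simp only [List.pairwise_cons, List.mem_cons, List.not_mem_nil, or_false, Fin.lt_def,
          forall_eq_or_imp, forall_eq, f0, f13, f26, f39, List.Pairwise.nil, and_true,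
          IsEmpty.forall_iff, implies_true]
        omega
      · apply hnot
        intro l hlL
        simp only [List.mem_cons, List.not_mem_nil, or_false, not_or] at hlL
        tauto
  · have hi' : 39 < (i : ℕ) := by
      rcases hi with ⟨hi1, hi2, hi3⟩
      omega
    rcases lt_or_ge (j : ℕ) 26 with hj26 | hj26
    · rw [prod_sorted _ [0, 13, j, 26, 39, i]]
      · simp only [List.map_cons, List.map_nil, List.prod_cons, List.prod_nil, mul_one]
        rw [E0, E13, E26, E39, Ei, Ej, e1, e2, e3, ← mul_assoc (Coprod.inl (sylv (h 26))), s26,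
          one_mul, ← mul_assoc (Coprod.inr (sylv (h 39))), s39, one_mul, s0]
      · simp only [List.pairwise_cons, List.mem_cons, List.not_mem_nil, or_false, Fin.lt_def,
          forall_eq_or_imp, forall_eq, f0, f13, f26, f39, List.Pairwise.nil, and_true,
          IsEmpty.forall_iff, implies_true]
        omega
      · apply hnot
        intro l hlL
        simp only [List.mem_cons, List.not_mem_nil, or_false, not_or] at hlL
        tauto
    · have hj' : 26 < (j : ℕ) := by
        rcases hj with ⟨-, hj, -⟩
        omega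
      rw [prod_sorted _ [0, 13, 26, j, 39, i]]
      · simp only [List.map_cons, List.map_nil, List.prod_cons, List.prod_nil, mul_one]
        rw [E0, E13, E26, E39, Ei, Ej, e1, e2, e3, ← mul_assoc (Coprod.inl (sylv (h 26))), s26,
          one_mul, ← mul_assoc (Coprod.inr (sylv (h 39))), s39, one_mul, s0]
      · simp only [List.pairwise_cons, List.mem_cons, List.not_mem_nil, or_false, Fin.lt_def,
          forall_eq_or_imp, forall_eq, f0, f13, f26, f39, List.Pairwise.nil, and_true,
          IsEmpty.forall_iff, implies_true]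
        omega
      · apply hnot
        intro l hlL
        simp only [List.mem_cons, List.not_mem_nil, or_false, not_or] at hlL
        tauto

theorem m5c (he : TargetM5e) (hl : TargetM5l) : TargetM5c := by
  intro h i j hi hj h0 h1 h2 h3
  rw [he h]
  have e1 : sylv (h i) = sylv (h 13) := (hl.2.1 _ _).mpr h1
  have e2 : sylv (h j) = sylv (h 39) := (hl.2.1 _ _).mpr h2
  have e3 : sylv (h 0) = sylv (h 26) := (hl.2.1 _ _).mpr h3
  have hone : ∀ l : Fin 52, l ≠ 0 → l ≠ 13 → l ≠ 26 → l ≠ 39 → l ≠ i → l ≠ j →
      emb l (sylv (h l)) = 1 := by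
    intro l a0 a13 a26 a39 ai aj
    have hM : ¬ IsMain l := by
      intro hM
      revert a0 a13 a26 a39 hM
      clear ai aj
      revert l
      decide
    rw [(hl.2.2.1 (h l)).mpr (h0 l hM ai aj), map_one]
  have sq := hl.2.2.2
  have E0 : emb ((0 : Fin 52) : ℕ) = Coprod.inl := emb_even (by decide)
  have E13 : emb ((13 : Fin 52) : ℕ) = Coprod.inr := emb_odd (by decide)
  have E26 : emb ((26 : Fin 52) : ℕ) = Coprod.inl := emb_even (by decide)
  have E39 : emb ((39 : Fin 52) : ℕ) = Coprod.inr := emb_odd (by decide)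
  have Ei : emb (i : ℕ) = Coprod.inr := emb_odd hi.1
  have Ej : emb (j : ℕ) = Coprod.inr := emb_odd hj.1
  have s26 : (Coprod.inl (sylv (h 26)) : G) * Coprod.inl (sylv (h 26)) = 1 := by
    rw [← map_mul, sq, map_one]
  have s13 : (Coprod.inr (sylv (h 13)) : G) * Coprod.inr (sylv (h 13)) = 1 := by
    rw [← map_mul, sq, map_one]
  have s39 : (Coprod.inr (sylv (h 39)) : G) * Coprod.inr (sylv (h 39)) = 1 := by
    rw [← map_mul, sq, map_one]
  have f0 : ((0 : Fin 52) : ℕ) = 0 := rfl
  have f13 : ((13 : Fin 52) : ℕ) = 13 := rfl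
  have f26 : ((26 : Fin 52) : ℕ) = 26 := rfl
  have f39 : ((39 : Fin 52) : ℕ) = 39 := rfl
  have hnot : ∀ (L : List (Fin 52)), (∀ l, l ∉ L → l ≠ 0 ∧ l ≠ 13 ∧ l ≠ 26 ∧ l ≠ 39 ∧ l ≠ i ∧
      l ≠ j) → ∀ l, l ∉ L → emb l (sylv (h l)) = 1 := by
    intro L hL l hlL
    obtain ⟨a0, a13, a26, a39, ai, aj⟩ := hL l hlL
    exact hone l a0 a13 a26 a39 ai aj
  rcases lt_or_ge (i : ℕ) 13 with hi13 | hi13
  · rcases lt_or_ge (j : ℕ) 39 with hj39 | hj39
    · rw [prod_sorted _ [0, i, 13, 26, j, 39]]
      · simp only [List.map_cons, List.map_nil, List.prod_cons, List.prod_nil, mul_one]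
        rw [E0, E13, E26, E39, Ei, Ej, e1, e2, e3, s39, mul_one,
          ← mul_assoc (Coprod.inr (sylv (h 13))), s13, one_mul, s26]
      · simp only [List.pairwise_cons, List.mem_cons, List.not_mem_nil, or_false, Fin.lt_def,
          forall_eq_or_imp, forall_eq, f0, f13, f26, f39, List.Pairwise.nil, and_true,
          IsEmpty.forall_iff, implies_true]
        omega
      · apply hnot
        intro l hlL
        simp only [List.mem_cons, List.not_mem_nil, or_false, not_or] at hlL
        tauto
    · have hj' : 39 < (j : ℕ) := by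
        rcases hj with ⟨hj1, hj, -⟩
        omega
      rw [prod_sorted _ [0, i, 13, 26, 39, j]]
      · simp only [List.map_cons, List.map_nil, List.prod_cons, List.prod_nil, mul_one]
        rw [E0, E13, E26, E39, Ei, Ej, e1, e2, e3, s39, mul_one,
          ← mul_assoc (Coprod.inr (sylv (h 13))), s13, one_mul, s26]
      · simp only [List.pairwise_cons, List.mem_cons, List.not_mem_nil, or_false, Fin.lt_def,
          forall_eq_or_imp, forall_eq, f0, f13, f26, f39, List.Pairwise.nil, and_true,
          IsEmpty.forall_iff, implies_true]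
        omega
      · apply hnot
        intro l hlL
        simp only [List.mem_cons, List.not_mem_nil, or_false, not_or] at hlL
        tauto
  · have hi' : 13 < (i : ℕ) := by
      rcases hi with ⟨hi1, hi2, hi3⟩
      omega
    rcases lt_or_ge (j : ℕ) 39 with hj39 | hj39
    · rw [prod_sorted _ [0, 13, i, 26, j, 39]]
      · simp only [List.map_cons, List.map_nil, List.prod_cons, List.prod_nil, mul_one]
        rw [E0, E13, E26, E39, Ei, Ej, e1, e2, e3, s39, mul_one,
          ← mul_assoc (Coprod.inr (sylv (h 13))), s13, one_mul, s26]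
      · simp only [List.pairwise_cons, List.mem_cons, List.not_mem_nil, or_false, Fin.lt_def,
          forall_eq_or_imp, forall_eq, f0, f13, f26, f39, List.Pairwise.nil, and_true,
          IsEmpty.forall_iff, implies_true]
        omega
      · apply hnot
        intro l hlL
        simp only [List.mem_cons, List.not_mem_nil, or_false, not_or] at hlL
        tauto
    · have hj' : 39 < (j : ℕ) := by
        rcases hj with ⟨hj1, hj, -⟩
        omega
      rw [prod_sorted _ [0, 13, i, 26, 39, j]]
      · simp only [List.map_cons, List.map_nil, List.prod_cons, List.prod_nil, mul_one]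
        rw [E0, E13, E26, E39, Ei, Ej, e1, e2, e3, s39, mul_one,
          ← mul_assoc (Coprod.inr (sylv (h 13))), s13, one_mul, s26]
      · simp only [List.pairwise_cons, List.mem_cons, List.not_mem_nil, or_false, Fin.lt_def,
          forall_eq_or_imp, forall_eq, f0, f13, f26, f39, List.Pairwise.nil, and_true,
          IsEmpty.forall_iff, implies_true]
        omega
      · apply hnot
        intro l hlL
        simp only [List.mem_cons, List.not_mem_nil, or_false, not_or] at hlL
        tauto

end Pool.Agent.H15.CF
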