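import Pool.Agent.H5.CF.Targets

/-! Module M7 of MP_268cdb_al. -/

set_option autoImplicit false

namespace Pool.Agent.H15.CF

open Pool.Agent.H5.CF Module

theorem sum_rc {K m : ℕ} (ρ : Fin m → Fin K → ℚ) (q : Fin K → ℕ) (c : Fin m) (N : ℕ)
    (hN : ∀ x, q x < N) (σ : ℕ → ℚ) :
    ∑ x, ρ c x * σ (q x) = ∑ i ∈ Finset.range N, rc ρ q c i * σ i := by
  unfold rc
  simp only [Finset.sum_mul]
  rw [Finset.sum_comm]
  refine Finset.sum_congr rfl fun x _ => ?_
  rw [Finset.sum_eq_single (q x)]
  · simp
  · intro i _ hi
    rw [if_neg (fun h => hi h.symm), zero_mul]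
  · intro h
    exact absurd (Finset.mem_range.mpr (hN x)) h

theorem sum_congr_rc {K m : ℕ} (ρ : Fin m → Fin K → ℚ) (q : Fin K → ℕ) (c : Fin m)
    (σ σ' : ℕ → ℚ) (h : ∀ i, rc ρ q c i = 0 ∨ σ i = σ' i) :
    ∑ x, ρ c x * σ (q x) = ∑ x, ρ c x * σ' (q x) := by
  have hN : ∀ x, q x < (∑ x, q x) + 1 := fun x =>
    Nat.lt_succ_of_le (Finset.single_le_sum (f := q) (fun _ _ => Nat.zero_le _) (Finset.mem_univ x))
  rw [sum_rc ρ q c _ hN, sum_rc ρ q c _ hN]
  refine Finset.sum_congr rfl fun i _ => ?_
  rcases h i with h | h
  · rw [h, zero_mul, zero_mul]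
  · rw [h]

theorem cs_iff {K m : ℕ} (ρ : Fin m → Fin K → ℚ) (q : Fin K → ℕ) (μ : ℕ → ℕ) (c : Fin m) (b : ℕ)
    (h : ∀ i, rc ρ q c i = 0 ∨ μ i % 2 = i % 2) :
    ∑ x, (if μ (q x) % 2 = b then ρ c x else 0) = ∑ x, (if q x % 2 = b then ρ c x else 0) := by
  have e1 : ∀ f : ℕ → ℕ, ∑ x, (if f (q x) % 2 = b then ρ c x else 0) =
      ∑ x, ρ c x * (if f (q x) % 2 = b then (1 : ℚ) else 0) := by
    intro f
    refine Finset.sum_congr rfl fun x _ => ?_
    by_cases h : f (q x) % 2 = b <;> simp [h]
  rw [e1 μ, e1 (fun i => i)]
  refine sum_congr_rc ρ q c (fun i => if μ i % 2 = b then (1 : ℚ) else 0)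
    (fun i => if i % 2 = b then (1 : ℚ) else 0) fun i => ?_
  rcases h i with h | h
  · exact Or.inl h
  · right
    simp only [h]

theorem m7 : TargetM7a → TargetM7b → TargetM7c → TargetM7 := by
  intro ha hb hc
  have key : ∀ (N K m : ℕ) (ρ : Fin m → Fin K → ℚ) (q : Fin K → ℕ), Monotone q → NCfam ρ →
      CS ρ q → (∀ x, q x < N) → DimOK ρ q := by
    intro N
    induction N using Nat.strong_induction_on with
    | _ N ih =>
      intro K m ρ q hq hNC hCS hN
      rcases ha K m ρ q hq hNC hCS with h | ⟨z, hz, h, x, hx⟩ | ⟨D, z, hz, h1, h2, h, x, hx⟩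
      · intro p n hn
        have hV : Vsub ρ q = ⊤ := by
          rw [eq_top_iff]
          intro σ _ c
          rw [sum_rc ρ q c N hN]
          simp [h]
        have hs : Function.Surjective (res p n) := by
          intro v
          refine ⟨fun i => if h : i - p < n then v ⟨i - p, h⟩ else 0, ?_⟩
          funext i
          have : p + (i : ℕ) - p < n := by have := i.2; omega
          show (if h : p + (i : ℕ) - p < n then v ⟨p + (i : ℕ) - p, h⟩ else 0) = v i
          rw [dif_pos this]
          congr 1
          apply Fin.ext
          simp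
        rw [hV, Submodule.map_top, LinearMap.range_eq_top.mpr hs, finrank_top, finrank_fin_fun]
        omega
      · refine hb K m ρ q z hz h ?_
        have hxN := hN x
        refine ih (N - 2) (by omega) K m ρ _ ?_ hNC ?_ ?_
        · intro x y hxy
          have := hq hxy
          simp only [mu1]
          split_ifs <;> omega
        · intro c b
          rw [cs_iff ρ q (mu1 z) c b, hCS c b]
          intro i
          by_cases hi : i = z
          · left; rw [hi, h c]
          · right
            unfold mu1
            split_ifs <;> omega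
        · intro y
          have := hN y
          simp only [mu1]
          split_ifs <;> omega
      · refine hc K m ρ q D z hz hCS h1 h2 h ?_
        have hxN := hN x
        refine ih (N - 2) (by omega) K m _ _ ?_ ?_ ?_ ?_
        · intro x y hxy
          have := hq hxy
          simp only [mu2]
          split_ifs <;> omega
        · constructor
          · intro c c' hcc x hx
            by_cases hD' : c' = D
            · simp [hD']
            · by_cases hD : c = D
              · simp [hD] at hx
              · simp only [if_neg hD, if_neg hD'] at hx ⊢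
                exact hNC.1 c c' hcc x hx
          · intro c c' hcc i j k l hij hjk hkl e1 e2 e3 e4
            by_cases hD' : c' = D
            · simp [hD'] at e2
            · by_cases hD : c = D
              · simp [hD] at e1
              · simp only [if_neg hD, if_neg hD'] at e1 e2 e3 e4
                exact hNC.2 c c' hcc i j k l hij hjk hkl e1 e2 e3 e4
        · intro c b
          by_cases hD : c = D
          · simp [hD]
          · simp only [if_neg hD]
            rw [cs_iff ρ q (mu2 z) c b, hCS c b]
            intro i
            by_cases hi : i = z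
            · left; rw [hi, (h c hD).1]
            by_cases hi' : i = z + 1
            · left; rw [hi', (h c hD).2]
            · right
              unfold mu2
              split_ifs <;> omega
        · intro y
          have := hN y
          simp only [mu2]
          split_ifs <;> omega
  intro K m ρ q hq hNC hCS
  exact key ((∑ x, q x) + 1) K m ρ q hq hNC hCS (fun x =>
    Nat.lt_succ_of_le (Finset.single_le_sum (f := q) (fun _ _ => Nat.zero_le _)
      (Finset.mem_univ x)))

end Pool.Agent.H15.CF
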