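import Pool.Agent.H5.CF.Targets

/-! Modules M7b and M7c of MP_268cdb_al. -/

set_option autoImplicit false

namespace Pool.Agent.H15.CF

open Pool.Agent.H5.CF Module

/-- comparison of dimensions -/
theorem finrank_le {V V' : Submodule ℚ (ℕ → ℚ)} {p n a k : ℕ} (h : Fin k → Fin n)
    (hs : ∀ s' ∈ V', ∃ s ∈ V, ∀ i : Fin k, s (p + h i) = s' (a + i)) :
    finrank ℚ (V'.map (res a k)) ≤ finrank ℚ (V.map (res p n)) := by
  have h1 : V'.map (res a k) ≤ (V.map (res p n)).map (LinearMap.funLeft ℚ ℚ h) := by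
    rintro _ ⟨s', hs', rfl⟩
    obtain ⟨s, hs1, hs2⟩ := hs s' hs'
    refine ⟨res p n s, ⟨s, hs1, rfl⟩, ?_⟩
    funext i
    exact hs2 i
  exact (Submodule.finrank_mono h1).trans (Submodule.finrank_map_le _ _)

/-- comparison of dimensions, with one additional vector -/
theorem finrank_lt {V V' : Submodule ℚ (ℕ → ℚ)} {p n a k : ℕ} (h : Fin k → Fin n)
    (hs : ∀ s' ∈ V', ∃ s ∈ V, ∀ i : Fin k, s (p + h i) = s' (a + i))
    (u : ℕ → ℚ) (hu : u ∈ V) (hu0 : ∀ i : Fin k, u (p + h i) = 0) (j : ℕ) (hj : j < n)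
    (huj : u (p + j) ≠ 0) :
    finrank ℚ (V'.map (res a k)) + 1 ≤ finrank ℚ (V.map (res p n)) := by
  set W := V.map (res p n) with hW
  set f := LinearMap.funLeft ℚ ℚ h with hf
  have h1 : V'.map (res a k) ≤ W.map f := by
    rintro _ ⟨s', hs', rfl⟩
    obtain ⟨s, hs1, hs2⟩ := hs s' hs'
    refine ⟨res p n s, ⟨s, hs1, rfl⟩, ?_⟩
    funext i
    exact hs2 i
  have h2 := Submodule.finrank_mono h1
  have h3 := (f.domRestrict W).finrank_range_add_finrank_ker
  have h4 : LinearMap.range (f.domRestrict W) = W.map f := LinearMap.range_domRestrict _ _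
  rw [h4] at h3
  have h5 : 0 < finrank ℚ (LinearMap.ker (f.domRestrict W)) := by
    rw [Nat.pos_iff_ne_zero]
    intro h0
    rw [Submodule.finrank_eq_zero] at h0
    have hm : (⟨res p n u, ⟨u, hu, rfl⟩⟩ : W) ∈ LinearMap.ker (f.domRestrict W) := by
      rw [LinearMap.mem_ker]
      funext i
      exact hu0 i
    rw [h0, Submodule.mem_bot] at hm
    have : res p n u = 0 := congrArg Subtype.val hm
    exact huj (congrFun this ⟨j, hj⟩)
  omega

/-- the unit vector -/
def ei (z : ℕ) : ℕ → ℚ := fun i => if i = z then 1 else 0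

theorem ei_self (z : ℕ) : ei z z = 1 := by simp [ei]
theorem ei_ne {z i : ℕ} (h : i ≠ z) : ei z i = 0 := by simp [ei, h]

theorem sum_ei {K m : ℕ} (ρ : Fin m → Fin K → ℚ) (q : Fin K → ℕ) (c : Fin m) (z : ℕ) :
    ∑ x, ρ c x * ei z (q x) = rc ρ q c z := by
  unfold rc ei
  refine Finset.sum_congr rfl fun x _ => ?_
  split_ifs <;> simp

theorem mem_Vsub {K m : ℕ} (ρ : Fin m → Fin K → ℚ) (q : Fin K → ℕ) (σ : ℕ → ℚ) :
    σ ∈ Vsub ρ q ↔ ∀ c, ∑ x, ρ c x * σ (q x) = 0 := Iff.rfl

/-- the embedding leaving out two positions -/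
def skip (n w : ℕ) (i : Fin (n - 2)) : Fin n := ⟨if (i : ℕ) < w then i else i + 2, by
  have := i.2
  split_ifs <;> omega⟩

theorem m7b : TargetM7b := by
  intro K m ρ q z hz hc hD p n hn
  have hlift : ∀ s' ∈ Vsub ρ (fun x => mu1 z (q x)), (fun i => s' (mu1 z i)) ∈ Vsub ρ q :=
    fun s' hs' => hs'
  have hez : ei z ∈ Vsub ρ q := by
    intro c
    rw [sum_ei, hc c]
  by_cases h1 : p + n ≤ z
  · refine (hD p n hn).trans (finrank_le (a := p) (k := n) id ?_)
    intro s' hs'
    refine ⟨_, hlift s' hs', fun i => ?_⟩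
    have := i.2
    have : mu1 z (p + i) = p + i := by unfold mu1; rw [if_pos (by omega)]
    show s' (mu1 z (p + (id i : Fin n))) = _
    rw [id, this]
  by_cases h2 : z < p
  · refine (hD (p - 2) n hn).trans (finrank_le (a := p - 2) (k := n) id ?_)
    intro s' hs'
    refine ⟨_, hlift s' hs', fun i => ?_⟩
    have : mu1 z (p + i) = p - 2 + i := by
      unfold mu1; rw [if_neg (by omega), if_neg (by omega)]; omega
    show s' (mu1 z (p + (id i : Fin n))) = _
    rw [id, this]
  push Not at h1 h2
  by_cases h3 : n = 1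
  · subst h3
    have hpz : z = p := by omega
    have := finrank_lt (V := Vsub ρ q) (V' := ⊥) (p := p) (n := 1) (a := 0) (k := 0)
      (fun i => i.elim0) (fun s' hs' => ⟨0, Submodule.zero_mem _, fun i => i.elim0⟩) (ei z) hez
      (fun i => i.elim0) 0 (by omega) (by rw [hpz, Nat.add_zero, ei_self]; exact one_ne_zero)
    omega
  by_cases h4 : z = p
  · have := finrank_lt (V := Vsub ρ q) (V' := Vsub ρ (fun x => mu1 z (q x))) (p := p) (n := n)
      (a := p - 1) (k := n - 1) (fun i => ⟨(i : ℕ) + 1, by have := i.2; omega⟩)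
      (fun s' hs' => ⟨_, hlift s' hs', fun i => ?_⟩) (ei z) hez
      (fun i => ei_ne (by simp only; omega)) 0 (by omega)
      (by rw [h4, Nat.add_zero, ei_self]; exact one_ne_zero)
    · have h5 := hD (p - 1) (n - 1) (by omega)
      omega
    · have : mu1 z (p + (i + 1)) = p - 1 + i := by
        unfold mu1; rw [if_neg (by omega), if_neg (by omega)]; omega
      show s' (mu1 z (p + (i + 1))) = _
      rw [this]
  by_cases h5 : z + 1 = p + n
  · have := finrank_lt (V := Vsub ρ q) (V' := Vsub ρ (fun x => mu1 z (q x))) (p := p) (n := n)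
      (a := p) (k := n - 1) (fun i => ⟨(i : ℕ), by have := i.2; omega⟩)
      (fun s' hs' => ⟨_, hlift s' hs', fun i => ?_⟩) (ei z) hez
      (fun i => ei_ne (by have := i.2; simp only; omega)) (n - 1) (by omega)
      (by rw [show p + (n - 1) = z by omega, ei_self]; exact one_ne_zero)
    · have h5 := hD p (n - 1) (by omega)
      omega
    · have hi := i.2
      have : mu1 z (p + i) = p + i := by
        unfold mu1; rw [if_pos (by omega)]
      show s' (mu1 z (p + i)) = _
      rw [this]
  · have := finrank_lt (V := Vsub ρ q) (V' := Vsub ρ (fun x => mu1 z (q x))) (p := p) (n := n)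
      (a := p) (k := n - 2) (skip n (z - p))
      (fun s' hs' => ⟨_, hlift s' hs', fun i => ?_⟩) (ei z) hez
      (fun i => ei_ne (by simp only [skip]; split_ifs <;> omega)) (z - p) (by omega)
      (by rw [show p + (z - p) = z by omega, ei_self]; exact one_ne_zero)
    · have h5 := hD p (n - 2) (by omega)
      omega
    · have hi := i.2
      have : mu1 z (p + (skip n (z - p) i : Fin n)) = p + i := by
        simp only [skip]
        split_ifs with h
        · unfold mu1; rw [if_pos (by omega)]
        · unfold mu1; rw [if_neg (by omega), if_neg (by omega)]; omega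
      show s' (mu1 z (p + (skip n (z - p) i : Fin n))) = _
      rw [this]

theorem m7c : TargetM7c := by
  intro K m ρ q D z hz hCS hD1 hD2 hc hD p n hn
  set V := Vsub ρ q with hV
  set V' := Vsub (fun c => if c = D then 0 else ρ c) (fun x => mu2 z (q x)) with hV'
  have hDD : ∀ p n : ℕ, 0 < n → n / 2 + 1 ≤ finrank ℚ (V'.map (res p n)) := hD
  have hlift : ∀ s' ∈ V', ∃ t : ℚ, (fun i => s' (mu2 z i) + t * ei z i) ∈ V := by
    intro s' hs'
    refine ⟨-(∑ x, ρ D x * s' (mu2 z (q x))) / rc ρ q D z, ?_⟩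
    intro c
    have e1 : ∀ t : ℚ, ∑ x, ρ c x * (s' (mu2 z (q x)) + t * ei z (q x)) =
        (∑ x, ρ c x * s' (mu2 z (q x))) + t * rc ρ q c z := by
      intro t
      rw [← sum_ei, Finset.mul_sum, ← Finset.sum_add_distrib]
      refine Finset.sum_congr rfl fun x _ => ?_
      ring
    rw [e1]
    by_cases hcD : c = D
    · subst hcD
      rw [div_mul_cancel₀ _ hD1]
      ring
    · have h1 := hs' c
      simp only [if_neg hcD] at h1
      rw [h1, (hc c hcD).1]
      ring
  have hu : (fun i => rc ρ q D (z + 1) * ei z i - rc ρ q D z * ei (z + 1) i) ∈ V := by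
    intro c
    have e1 : ∑ x, ρ c x * (rc ρ q D (z + 1) * ei z (q x) - rc ρ q D z * ei (z + 1) (q x)) =
        rc ρ q D (z + 1) * rc ρ q c z - rc ρ q D z * rc ρ q c (z + 1) := by
      rw [← sum_ei ρ q c z, ← sum_ei ρ q c (z + 1), Finset.mul_sum, Finset.mul_sum,
        ← Finset.sum_sub_distrib]
      refine Finset.sum_congr rfl fun x _ => ?_
      ring
    rw [e1]
    by_cases hcD : c = D
    · subst hcD
      ring
    · rw [(hc c hcD).1, (hc c hcD).2]
      ring
  have hcol : ∀ b : ℕ, (fun i : ℕ => if i % 2 = b then (1 : ℚ) else 0) ∈ V := by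
    intro b c
    refine Eq.trans (Finset.sum_congr rfl fun x _ => ?_) (hCS c b)
    by_cases h : q x % 2 = b <;> simp [h]
  by_cases h1 : n = 1
  · subst h1
    have := finrank_lt (V := V) (V' := ⊥) (p := p) (n := 1) (a := 0) (k := 0)
      (fun i => i.elim0) (fun s' hs' => ⟨0, Submodule.zero_mem _, fun i => i.elim0⟩) _
      (hcol (p % 2)) (fun i => i.elim0) 0 (by omega) (by simp)
    omega
  by_cases h2 : n = 2
  · subst h2
    have h3 : 1 ≤ finrank ℚ (V.map (res p 1)) := by
      have := finrank_lt (V := V) (V' := ⊥) (p := p) (n := 1) (a := 0) (k := 0)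
        (fun i => i.elim0) (fun s' hs' => ⟨0, Submodule.zero_mem _, fun i => i.elim0⟩) _
        (hcol (p % 2)) (fun i => i.elim0) 0 (by omega) (by simp)
      omega
    have := finrank_lt (V := V) (V' := V) (p := p) (n := 2) (a := p) (k := 1)
      (fun i => ⟨(i : ℕ), by omega⟩) (fun s' hs' => ⟨s', hs', fun i => rfl⟩) _
      (hcol ((p + 1) % 2)) (fun i => ?_) 1 (by omega) (by simp)
    · omega
    · have hi := i.2
      simp only
      rw [if_neg (by omega)]
  by_cases h3 : p + n ≤ z
  · refine (hDD p n hn).trans (finrank_le (a := p) (k := n) id ?_)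
    intro s' hs'
    obtain ⟨t, ht⟩ := hlift s' hs'
    refine ⟨_, ht, fun i => ?_⟩
    have := i.2
    have e1 : mu2 z (p + i) = p + i := by unfold mu2; rw [if_pos (by omega)]
    show s' (mu2 z (p + i)) + t * ei z (p + i) = _
    rw [e1, ei_ne (by omega), mul_zero, add_zero]
  by_cases h4 : z + 2 ≤ p
  · refine (hDD (p - 2) n hn).trans (finrank_le (a := p - 2) (k := n) id ?_)
    intro s' hs'
    obtain ⟨t, ht⟩ := hlift s' hs'
    refine ⟨_, ht, fun i => ?_⟩
    have e1 : mu2 z (p + i) = p - 2 + i := by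
      unfold mu2; rw [if_neg (by omega), if_neg (by omega), if_neg (by omega)]; omega
    show s' (mu2 z (p + i)) + t * ei z (p + i) = _
    rw [e1, ei_ne (by omega), mul_zero, add_zero]
  by_cases h5 : z + 1 = p
  · have := finrank_lt (V := V) (V' := V') (p := p) (n := n)
      (a := p - 1) (k := n - 1) (fun i => ⟨(i : ℕ) + 1, by have := i.2; omega⟩)
      (fun s' hs' => ?_) _ hu (fun i => ?_) 0 (by omega) ?_
    · have h5 := hDD (p - 1) (n - 1) (by omega)
      omega
    · obtain ⟨t, ht⟩ := hlift s' hs'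
      refine ⟨_, ht, fun i => ?_⟩
      have e1 : mu2 z (p + (i + 1)) = p - 1 + i := by
        unfold mu2; rw [if_neg (by omega), if_neg (by omega), if_neg (by omega)]; omega
      show s' (mu2 z (p + (i + 1))) + t * ei z (p + (i + 1)) = _
      rw [e1, ei_ne (by omega), mul_zero, add_zero]
    · simp only
      rw [ei_ne (by omega), ei_ne (by omega)]
      ring
    · rw [Nat.add_zero, ei_ne (by omega), ← h5, ei_self, mul_zero, mul_one, zero_sub]
      exact neg_ne_zero.mpr hD1
  by_cases h6 : z + 1 = p + n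
  · have := finrank_lt (V := V) (V' := V') (p := p) (n := n)
      (a := p) (k := n - 1) (fun i => ⟨(i : ℕ), by have := i.2; omega⟩)
      (fun s' hs' => ?_) _ hu (fun i => ?_) (n - 1) (by omega) ?_
    · have h5 := hDD p (n - 1) (by omega)
      omega
    · obtain ⟨t, ht⟩ := hlift s' hs'
      refine ⟨_, ht, fun i => ?_⟩
      have hi := i.2
      have e1 : mu2 z (p + i) = p + i := by unfold mu2; rw [if_pos (by omega)]
      show s' (mu2 z (p + i)) + t * ei z (p + i) = _
      rw [e1, ei_ne (by omega), mul_zero, add_zero]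
    · have hi := i.2
      simp only
      rw [ei_ne (by omega), ei_ne (by omega)]
      ring
    · rw [show p + (n - 1) = z by omega, ei_self, ei_ne (by omega), mul_zero, mul_one, sub_zero]
      exact hD2
  · have := finrank_lt (V := V) (V' := V') (p := p) (n := n)
      (a := p) (k := n - 2) (skip n (z - p))
      (fun s' hs' => ?_) _ hu (fun i => ?_) (z - p) (by omega) ?_
    · have h5 := hDD p (n - 2) (by omega)
      omega
    · obtain ⟨t, ht⟩ := hlift s' hs'
      refine ⟨_, ht, fun i => ?_⟩
      have hi := i.2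
      have e1 : mu2 z (p + (skip n (z - p) i : Fin n)) = p + i := by
        simp only [skip]
        split_ifs with h
        · unfold mu2; rw [if_pos (by omega)]
        · unfold mu2; rw [if_neg (by omega), if_neg (by omega), if_neg (by omega)]; omega
      have e2 : p + ((skip n (z - p) i : Fin n) : ℕ) ≠ z := by
        simp only [skip]
        split_ifs <;> omega
      show s' (mu2 z (p + (skip n (z - p) i : Fin n))) +
        t * ei z (p + (skip n (z - p) i : Fin n)) = _
      rw [e1, ei_ne e2, mul_zero, add_zero]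
    · have e2 : p + ((skip n (z - p) i : Fin n) : ℕ) ≠ z := by
        simp only [skip]
        split_ifs <;> omega
      have e3 : p + ((skip n (z - p) i : Fin n) : ℕ) ≠ z + 1 := by
        simp only [skip]
        split_ifs <;> omega
      rw [ei_ne e2, ei_ne e3]
      ring
    · rw [show p + (z - p) = z by omega, ei_self, ei_ne (by omega), mul_zero, mul_one, sub_zero]
      exact hD2

end Pool.Agent.H15.CF
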